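import Pool.Agent.helper78.HFN.Spec

/-!
# Row hfn:NRM (MP_3221a1_ag, helper40): the normalization `T`
-/

set_option autoImplicit false

open Polynomial Module
open Filter Topology

namespace Pool.Agent.HFN

noncomputable section

theorem NRM : NRM_stmt := by
  have hu : Tendsto (fun r : ℕ => Nat.sqrt (Nat.sqrt r)) atTop atTop :=
    tendsto_atTop_atTop.2 fun b => ⟨(b * b) * (b * b), fun r hr => Nat.le_sqrt.2 (Nat.le_sqrt.2 hr)⟩
  have hu' : Tendsto (fun r : ℕ => ((Nat.sqrt (Nat.sqrt r) : ℕ) : ℝ)) atTop atTop :=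
    tendsto_natCast_atTop_atTop.comp hu
  have key : ∀ r : ℕ, 20 ≤ Nat.sqrt (Nat.sqrt r) →
      (Nat.sqrt (Nat.sqrt r)) ^ 2 ≤ Nat.sqrt r ∧ (Nat.sqrt r) ^ 2 ≤ r ∧ r ≤ 4 * (Nat.sqrt r) ^ 2 ∧
      20 ≤ Nat.sqrt r := by
    intro r hr
    have h1 := Nat.sqrt_le' (Nat.sqrt r)
    have h2 := Nat.sqrt_le' r
    have h3 := Nat.lt_succ_sqrt' r
    have h4 : 20 ≤ Nat.sqrt r := by nlinarith
    refine ⟨h1, h2, ?_, h4⟩
    have h5 : r < (Nat.sqrt r + 1) ^ 2 := h3
    nlinarith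
  refine ⟨fun r => Nat.sqrt r * Nat.sqrt (Nat.sqrt r), ?_, ?_, ?_⟩
  · filter_upwards [hu.eventually_ge_atTop 20] with r hr
    obtain ⟨h1, h2, h3, h4⟩ := key r hr
    generalize Nat.sqrt (Nat.sqrt r) = u at *
    generalize Nat.sqrt r = s at *
    refine ⟨by nlinarith, by nlinarith, ?_⟩
    calc 100 * r ≤ 100 * (4 * s ^ 2) := Nat.mul_le_mul_left _ h3
      _ = s ^ 2 * (20 * 20) := by ring
      _ ≤ s ^ 2 * (u * u) := Nat.mul_le_mul_left _ (Nat.mul_le_mul hr hr)
      _ = s * u * (s * u) := by ring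
  · refine squeeze_zero' (Eventually.of_forall fun r => by positivity) ?_ (tendsto_inv_atTop_zero.comp hu')
    filter_upwards [hu.eventually_ge_atTop 20] with r hr
    obtain ⟨h1, h2, h3, h4⟩ := key r hr
    simp only [Function.comp]
    generalize Nat.sqrt (Nat.sqrt r) = u at *
    generalize Nat.sqrt r = s at *
    have hr0 : 0 < r := by nlinarith
    have hr1 : (0 : ℝ) < r := by exact_mod_cast hr0
    have hu0 : (0 : ℝ) < u := by exact_mod_cast (by omega : 0 < u)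
    rw [inv_eq_one_div, div_le_div_iff₀ hr1 hu0]
    have h5 : s * u * u ≤ r := by nlinarith
    have h6 : ((s * u * u : ℕ) : ℝ) ≤ r := by exact_mod_cast h5
    push_cast at h6 ⊢
    linarith
  · have h0 : Tendsto (fun r : ℕ => 4 * (((Nat.sqrt (Nat.sqrt r) : ℕ) : ℝ)⁻¹)) atTop (𝓝 0) := by
      have := (tendsto_inv_atTop_zero.comp hu').const_mul (4 : ℝ)
      simpa using this
    refine squeeze_zero' (Eventually.of_forall fun r => by positivity) ?_ h0
    filter_upwards [hu.eventually_ge_atTop 20] with r hr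
    obtain ⟨h1, h2, h3, h4⟩ := key r hr
    generalize Nat.sqrt (Nat.sqrt r) = u at *
    generalize Nat.sqrt r = s at *
    have hu0 : (0 : ℝ) < u := by exact_mod_cast (by omega : 0 < u)
    have hs0 : (0 : ℝ) < s := by exact_mod_cast (by omega : 0 < s)
    have hT : (0 : ℝ) < (((s * u : ℕ) : ℝ)) ^ 2 := by positivity
    rw [← div_eq_mul_inv, div_le_div_iff₀ hT hu0]
    have h5 : r * u ≤ 4 * (s * u) ^ 2 := by
      calc r * u ≤ 4 * s ^ 2 * u := Nat.mul_le_mul_right _ h3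
        _ ≤ 4 * s ^ 2 * (u * u) := Nat.mul_le_mul_left _ (Nat.le_mul_self u)
        _ = 4 * (s * u) ^ 2 := by ring
    exact_mod_cast h5

end

end Pool.Agent.HFN
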